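import Pool.Agent.LeoC.CountStmts

/-! NRF: normalisation of a form by a unit and a translation. -/

set_option autoImplicit false

open NumberField NumberField.InfinitePlace NumberField.mixedEmbedding IsDedekindDomain Module
open Pool.Agent.LeoK Pool.Agent.LeoG Pool.Agent.LeoC

open scoped Classical

namespace Pool.Agent.LeoC.H90

section

variable {k : Type} [Field k] [NumberField k]

/-- translation into the fundamental domain -/
theorem exists_translate (x : MS k) :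
    ∃ t : 𝓞 k, x + mixedEmbedding k (t : k) ∈ FD k := by
  have h1 : -(ZSpan.floor (latticeBasis k) x : MS k) ∈
      Submodule.span ℤ (Set.range (latticeBasis k)) :=
    Submodule.neg_mem _ (ZSpan.floor (latticeBasis k) x).2
  obtain ⟨t, ht⟩ := (mem_span_latticeBasis k).1 h1
  refine ⟨t, ?_⟩
  have h2 : mixedEmbedding k (t : k) = -(ZSpan.floor (latticeBasis k) x : MS k) := ht
  rw [h2, ← sub_eq_add_neg]
  exact ZSpan.fract_mem_fundamentalDomain (latticeBasis k) x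

end

theorem nr_unit (hEVS : EvsStmt) {k : Type} [Field k] [NumberField k] (η : (𝓞 k)ˣ) :
    nr (fun v : InfinitePlace k => v ((η : 𝓞 k) : k)) = 1 := by
  obtain ⟨-, -, -, -, -, -, -, E8, E9⟩ := hEVS k
  have h1 := (E9 (η : 𝓞 k) η.ne_zero).2
  have h4 : Ideal.span {(η : 𝓞 k)} = ⊤ := Ideal.span_singleton_eq_top.2 η.isUnit
  rw [h4, Ideal.absNorm_top] at h1
  have h2 : av (mixedEmbedding k ((η : 𝓞 k) : k)) = fun v : InfinitePlace k => v ((η : 𝓞 k) : k) := by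
    funext v
    exact E8 _ v
  rw [h2] at h1
  rw [h1]
  simp

theorem nrf (hHKA : HkaStmt) (hEVS : EvsStmt) (hIDN : LeoG.IdnStmt) : LeoC.NrfStmt := by
  intro k _ _ Φ g hg0 hm
  obtain ⟨E1, E2, -, E4, E5, -, -, -, -⟩ := hEVS k
  obtain ⟨-, H2, H3, H4, -, H6⟩ := hHKA k g hm
  -- the unit
  obtain ⟨η, hη⟩ := Φ.exi (hk g 1 0) fun v => H2 1 0 (Or.inl one_ne_zero) v
  set u : Q4 (𝓞 k) := gact g (η : 𝓞 k) 0 0 ((η⁻¹ : (𝓞 k)ˣ) : 𝓞 k) with hu
  have hdet : ((η : 𝓞 k) * ((η⁻¹ : (𝓞 k)ˣ) : 𝓞 k) - 0 * 0) = 1 := by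
    rw [Units.mul_inv]
    ring
  have hmu : mm u = mm g := by
    have h1 := ((hIDN (𝓞 k) g).2 (η : 𝓞 k) 0 0 ((η⁻¹ : (𝓞 k)ˣ) : 𝓞 k)).1
    rw [hdet, one_pow, one_mul] at h1
    unfold mm
    rw [hu, h1]
  have hmu0 : mm u ≠ 0 := by rw [hmu]; exact hm
  have hu0 : u 0 = g 0 * (η : 𝓞 k) ^ 3 := by
    have h1 : u 0 = gval g (η : 𝓞 k) 0 := rfl
    rw [h1]
    unfold gval
    ring
  have hu0' : u 0 ≠ 0 := by
    rw [hu0]
    exact mul_ne_zero hg0 (pow_ne_zero _ η.ne_zero)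
  have hku : ∀ v : InfinitePlace k, hk u 1 0 v = v ((η : 𝓞 k) : k) ^ 2 * hk g 1 0 v := by
    intro v
    have h1 := H4 (η : 𝓞 k) 0 0 ((η⁻¹ : (𝓞 k)ˣ) : 𝓞 k) 1 0 v (by rw [hdet]; exact one_ne_zero)
    rw [hdet] at h1
    have h2 : v ((1 : 𝓞 k) : k) = 1 := by simp
    rw [h2, mul_one] at h1
    rw [h1, ← H3 (η : 𝓞 k) 1 0 v]
    congr 1 <;> ring
  -- the translation
  obtain ⟨t, ht⟩ := exists_translate (em u 1 / (3 * em u 0) : MS k)
  obtain ⟨-, -, -, K4, -, -⟩ := hHKA k u hmu0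
  have hdet2 : ((1 : 𝓞 k) * 1 - t * 0) = 1 := by ring
  set w : Q4 (𝓞 k) := gact u 1 t 0 1 with hw
  have hmw : mm w = mm u := by
    have h1 := ((hIDN (𝓞 k) u).2 1 t 0 1).1
    rw [hdet2, one_pow, one_mul] at h1
    unfold mm
    rw [hw, h1]
  have hmw0 : mm w ≠ 0 := by rw [hmw]; exact hmu0
  have hw0 : w 0 = u 0 := by
    have h1 : w 0 = gval u 1 0 := rfl
    rw [h1]
    unfold gval
    ring
  have hw1 : w 1 = u 1 + 3 * u 0 * t := by
    have h1 : w 1 = 3 * u 0 * 1 ^ 2 * t + u 1 * (1 ^ 2 * 1 + 2 * 1 * t * 0) +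
      u 2 * (2 * 1 * 0 * 1 + t * 0 ^ 2) + 3 * u 3 * 0 ^ 2 * 1 := rfl
    rw [h1]
    ring
  have hkw : hk w 1 0 = hk u 1 0 := by
    funext v
    have h1 := K4 1 t 0 1 1 0 v (by rw [hdet2]; exact one_ne_zero)
    rw [hdet2] at h1
    have h2 : v ((1 : 𝓞 k) : k) = 1 := by simp
    rw [h2, mul_one] at h1
    rw [hw, h1]
    congr 1 <;> ring
  have hszw : sz (em w) = fun v : InfinitePlace k => v ((η : 𝓞 k) : k) ^ 2 * hk g 1 0 v := by
    rw [(hHKA k w hmw0).2.2.2.2.2, hkw]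
    funext v
    exact hku v
  refine ⟨w, hmw.trans hmu, by rw [hw0]; exact hu0', ?_, ?_, ?_⟩
  · have h1 : (em w 1 / (3 * em w 0) : MS k) =
        em u 1 / (3 * em u 0) + mixedEmbedding k (t : k) := by
      apply E5
      intro v
      have h3 : ∀ y : MS k, ev v (3 * y) = 3 * ev v y := by
        intro y
        have h4 := E4 v 3
        rw [Nat.cast_ofNat] at h4
        rw [(E2 v 3 y).2.1, h4]
        norm_num
      have h5 : ∀ (x : Q4 (𝓞 k)) (i : Fin 4), ev v (em x i) = v.embedding (x i : k) := fun x i =>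
        E1 v (x i : k)
      rw [(E2 v _ _).1, (E2 v _ _).2.2.2, (E2 v _ _).2.2.2, h3, h3, h5, h5, h5, h5, E1, hw0, hw1]
      have h6 : v.embedding ((u 0 : 𝓞 k) : k) ≠ 0 := by
        rw [map_ne_zero]
        exact_mod_cast hu0'
      have h7 : (((u 1 + 3 * u 0 * t : 𝓞 k)) : k) = (u 1 : k) + 3 * (u 0 : k) * (t : k) := by
        change algebraMap (𝓞 k) k (u 1 + 3 * u 0 * t) = algebraMap (𝓞 k) k (u 1) +
          3 * algebraMap (𝓞 k) k (u 0) * algebraMap (𝓞 k) k t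
        rw [map_add, map_mul, map_mul, map_ofNat]
      rw [h7, map_add, map_mul, map_mul, map_ofNat]
      field_simp
    rw [h1]
    exact ht
  · rw [hszw]
    exact hη
  · rw [hszw, H6]
    have h1 := nr_unit hEVS η
    unfold nr at h1 ⊢
    have h2 : ∏ v : InfinitePlace k, (v ((η : 𝓞 k) : k) ^ 2 * hk g 1 0 v) ^ v.mult =
        (∏ v : InfinitePlace k, v ((η : 𝓞 k) : k) ^ v.mult) ^ 2 *
          ∏ v : InfinitePlace k, hk g 1 0 v ^ v.mult := by
      rw [← Finset.prod_pow, ← Finset.prod_mul_distrib]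
      refine Finset.prod_congr rfl fun v _ => ?_
      ring
    rw [h2, h1]
    ring

end Pool.Agent.LeoC.H90
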