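import Pool.Agent.LeoC.CountStmts

/-! USQ: only units `m` have `3 m` a square, and `-m` is never a square. -/

set_option autoImplicit false

open NumberField NumberField.InfinitePlace NumberField.mixedEmbedding IsDedekindDomain Module
open Pool.Agent.LeoK Pool.Agent.LeoG Pool.Agent.LeoC

namespace Pool.Agent.LeoC.H90

theorem exists_prime_of_max {k : Type} [Field k] [NumberField k] (P : Ideal (𝓞 k))
    (hP : P.IsMaximal) : ∃ p : HeightOneSpectrum (𝓞 k), p.asIdeal = P :=
  ⟨⟨P, hP.isPrime, Ring.ne_bot_of_isMaximal_of_not_isField hP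
    (RingOfIntegers.not_isField k)⟩, rfl⟩

theorem not_mem_of_loc {k : Type} [Field k] [NumberField k] {m : 𝓞 k} (hm0 : m ≠ 0)
    (p : HeightOneSpectrum (𝓞 k)) (hloc : LocOK p m) {x : k} (hx : x ^ 2 = 3 * (m : k)) :
    m ∉ p.asIdeal := by
  intro hmp
  by_cases h3 : (3 : 𝓞 k) ∈ p.asIdeal
  · have h4 := hloc.three h3 0
    apply h4
    simpa using hmp
  · have h5 : p.valuation k x ^ 2 = p.valuation k ((3 : 𝓞 k) : k) * p.valuation k (m : k) := by
      rw [← map_pow, hx, ← map_mul]
      congr 1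
    rw [HeightOneSpectrum.valuation_of_algebraMap, HeightOneSpectrum.valuation_of_algebraMap,
      HeightOneSpectrum.intValuation_eq_one_iff.2 h3, one_mul] at h5
    have h6 : p.intValuation m ≤ WithZero.exp (-((1 : ℕ) : ℤ)) :=
      (p.intValuation_le_pow_iff_mem m 1).2 (by rwa [pow_one])
    have h7 : ¬ p.intValuation m ≤ WithZero.exp (-((2 : ℕ) : ℤ)) := fun h =>
      hloc.sqf ((p.intValuation_le_pow_iff_mem m 2).1 h)
    have h8 : p.intValuation m ≠ 0 := p.intValuation_ne_zero m hm0
    obtain ⟨j, hj⟩ : ∃ j : ℤ, p.intValuation m = WithZero.exp j :=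
      ⟨WithZero.log (p.intValuation m), (WithZero.exp_log h8).symm⟩
    rw [hj, WithZero.exp_le_exp] at h6 h7
    have hx0 : p.valuation k x ≠ 0 := by
      intro h
      rw [h, zero_pow two_ne_zero] at h5
      exact h8 h5.symm
    obtain ⟨i, hi⟩ : ∃ i : ℤ, p.valuation k x = WithZero.exp i :=
      ⟨WithZero.log (p.valuation k x), (WithZero.exp_log hx0).symm⟩
    rw [hi, hj, ← WithZero.exp_nsmul, WithZero.exp_inj] at h5
    rw [nsmul_eq_mul] at h5
    push_cast at h5 h6 h7
    omega

/-- there is a prime above 3 -/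
theorem exists_prime_three (k : Type) [Field k] [NumberField k] :
    ∃ p : HeightOneSpectrum (𝓞 k), (3 : 𝓞 k) ∈ p.asIdeal := by
  have hnu : ¬ IsUnit (3 : 𝓞 k) := by
    intro h
    have h1 := h.map (Algebra.norm ℤ)
    have h2 : Algebra.norm ℤ (3 : 𝓞 k) = 3 ^ Fintype.card (Free.ChooseBasisIndex ℤ (𝓞 k)) := by
      have h3 := Algebra.norm_algebraMap_of_basis (RingOfIntegers.basis k) (3 : ℤ)
      rwa [map_ofNat] at h3
    rw [h2, isUnit_pow_iff] at h1
    · revert h1
      decide
    · rw [← finrank_eq_card_chooseBasisIndex, RingOfIntegers.rank]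
      exact finrank_pos.ne'
  obtain ⟨P, hP, hmP⟩ := exists_max_ideal_of_mem_nonunits hnu
  obtain ⟨p, hp⟩ := exists_prime_of_max P hP
  exact ⟨p, by rw [hp]; exact hmP⟩

theorem usq (hEVS : EvsStmt) : LeoC.UsqStmt := by
  intro k _ _ m x hloc
  refine ⟨fun hx => ?_, fun hx => ?_⟩
  · have hm0 : m ≠ 0 := by
      rintro rfl
      obtain ⟨P, hP⟩ := Ideal.exists_maximal (𝓞 k)
      obtain ⟨p, hp⟩ := exists_prime_of_max P hP
      exact (hloc p).sqf (Ideal.zero_mem _)
    have hunit : IsUnit m := by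
      by_contra hnu
      obtain ⟨P, hP, hmP⟩ := exists_max_ideal_of_mem_nonunits hnu
      obtain ⟨p, hp⟩ := exists_prime_of_max P hP
      rw [← hp] at hmP
      exact not_mem_of_loc hm0 p (hloc p) hx hmP
    obtain ⟨-, -, -, -, -, -, -, -, E9⟩ := hEVS k
    rw [(E9 m hm0).2, Ideal.span_singleton_eq_top.2 hunit, Ideal.absNorm_top]
    simp
  · obtain ⟨p, hp⟩ := exists_prime_three k
    have hint : IsIntegral (𝓞 k) x := by
      refine IsIntegral.of_pow two_pos ?_
      rw [hx]
      exact (isIntegral_algebraMap (x := m)).neg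
    obtain ⟨y, hy⟩ := IsIntegrallyClosed.isIntegral_iff.1 hint
    have h1 : y ^ 2 + m = 0 := by
      apply RingOfIntegers.coe_injective
      have h2 : algebraMap (𝓞 k) k (y ^ 2 + m) = 0 := by
        rw [map_add, map_pow, hy, hx]
        exact neg_add_cancel _
      rw [map_zero]
      exact h2
    have h3 := (hloc p).three hp y
    apply h3
    rw [h1]
    exact Ideal.zero_mem _

end Pool.Agent.LeoC.H90
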